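import Pool.Agent.helper15.Crossing.Defs
import Pool.Agent.helper15.Crossing.Main

/-!
# The biplanar crossing number of the hypercube is of order `2 ^ (3 k / 2)`

The definitions (`Drawing`, `crossingNumber`, `biplanarCrossingNumber`, `hypercube`) are in
`Pool/Agent/helper15/Crossing/Defs.lean`.  That every finite graph has a drawing with finitely many
crossings, so that the crossing number is attained, is proved in
`Pool/Agent/helper15/Crossing/Exists.lean`.

Outline of the proof.  The planarisation of a drawing has no `K₅` minor (`Planar.lean`; the
topological input, proved in `K5.lean`, is that among ten paths joining five points of the plane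
pairwise, two that belong to disjoint pairs meet).  A version with costs of the
Alon-Seymour-Thomas separator theorem (`Sep.lean`, `Sep2.lean`) is applied on about `k / 2` levels
(`Multi.lean`) and shows that by deleting at most `O(2 ^ (k / 4) (√C + k 2 ^ (k / 2)))` edges of a
subgraph of `Q_k` drawn with `C` crossings one obtains components with at most
`2 ^ (k / 2 - 1 / 2)` vertices (`Partition.lean`).  By edge isoperimetry in the hypercube
(`Iso.lean`) the two parts of a partition of the edges of `Q_k` would together have too few edges
if both were drawn with few crossings (`Main.lean`).
-/

set_option autoImplicit false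

namespace Pool.Agent.Results.MP_e9773e_co.BiplanarHypercube

open Pool.Agent.helper15.Crossing

/-- **Full answer.** There is a constant `c > 0` such that the biplanar crossing number of the
hypercube `Q_k` is at least `c 2 ^ (3 k / 2)` for all sufficiently large `k`. -/
theorem result : ∃ c : ℝ, 0 < c ∧ ∃ k₀ : ℕ, ∀ k : ℕ, k₀ ≤ k →
    c * 2 ^ ((3 * k : ℝ) / 2) ≤ biplanarCrossingNumber (hypercube k) :=
  ⟨1 / 819200, by norm_num, 64, fun _ hk => lower_bound hk⟩

end Pool.Agent.Results.MP_e9773e_co.BiplanarHypercube
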